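import Pool.Agent.N594.CT.Stm3

/-!
CT/WT (helper530): a weighted form of Mantel's theorem.
-/

set_option autoImplicit false

open Finset

namespace Pool.Agent.N530.CT.WT

theorem aux (V : Type) (f : V → V → ℕ) (B : ℕ) (hB : 1 ≤ B)
    (hs : ∀ u v, f u v = f v u) (hd : ∀ v, B + 1 ≤ f v v)
    (h : ∀ u v w, (B + 1 ≤ f u v ∨ B + 1 ≤ f v w ∨ B + 1 ≤ f u w) ∨
      (B ≤ f u v ∧ B ≤ f v w ∧ B ≤ f u w)) :
    ∀ (n : ℕ) (S : Finset V), S.card = n → (B + 1) * n ^ 2 ≤ 2 * ∑ u ∈ S, ∑ v ∈ S, f u v := by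
  classical
  intro n
  induction n using Nat.strong_induction_on with
  | _ n ih =>
    intro S hS
    by_cases hc : ∀ u ∈ S, ∀ v ∈ S, u ≠ v → B ≤ f u v
    · have h1 : ∑ u ∈ S, ∑ v ∈ S, (B + if u = v then 1 else 0) ≤ ∑ u ∈ S, ∑ v ∈ S, f u v := by
        refine sum_le_sum fun u hu => sum_le_sum fun v hv => ?_
        by_cases huv : u = v
        · subst huv; simpa using hd u
        · simpa [huv] using hc u hu v hv huv
      have h2 : ∑ u ∈ S, ∑ v ∈ S, (B + if u = v then 1 else 0) = n * (n * B) + n := by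
        simp [sum_add_distrib, hS]
      rw [h2] at h1
      nlinarith [Nat.zero_le n, Nat.mul_le_mul_right (n * n) hB]
    · push Not at hc
      obtain ⟨a, ha, b, hb, hab, hlt⟩ := hc
      have hk : ∀ v, B + 1 ≤ f a v + f b v := by
        intro v
        rcases h a b v with (h1 | h1 | h1) | ⟨h1, _, _⟩ <;> omega
      obtain ⟨T, hT⟩ : ∃ T, T = (S.erase a).erase b := ⟨_, rfl⟩
      have hbT : b ∉ T := by rw [hT]; exact notMem_erase _ _
      have haT : a ∉ insert b T := by
        rw [mem_insert, hT]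
        rintro (h1 | h1)
        · exact hab h1
        · exact (notMem_erase a S) (mem_of_mem_erase h1)
      have hbS : b ∈ S.erase a := mem_erase.2 ⟨fun e => hab e.symm, hb⟩
      have hST : S = insert a (insert b T) := by
        rw [hT, insert_erase hbS, insert_erase ha]
      have hcard : n = T.card + 2 := by
        rw [← hS, hST, card_insert_of_notMem haT, card_insert_of_notMem hbT]
      have h3 := ih T.card (by omega) T rfl
      have h4 : ∑ u ∈ S, ∑ v ∈ S, f u v = (f a a + f b b + 2 * f a b) +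
          2 * ∑ v ∈ T, (f a v + f b v) + ∑ u ∈ T, ∑ v ∈ T, f u v := by
        rw [hST, sum_insert haT, sum_insert hbT]
        simp only [sum_insert haT, sum_insert hbT, sum_add_distrib]
        have e1 : ∑ u ∈ T, f u a = ∑ u ∈ T, f a u := sum_congr rfl fun u _ => hs u a
        have e2 : ∑ u ∈ T, f u b = ∑ u ∈ T, f b u := sum_congr rfl fun u _ => hs u b
        rw [e1, e2, hs b a]
        ring
      have h5 : T.card * (B + 1) ≤ ∑ v ∈ T, (f a v + f b v) := by
        have := card_nsmul_le_sum T (fun v => f a v + f b v) (B + 1) fun v _ => hk v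
        simpa using this
      have h6 := hd a
      have h7 := hd b
      rw [h4, hcard]
      nlinarith

theorem main : Pool.Agent.N594.CT.S_WT := by
  intro V _ f A hA hs hd h
  obtain ⟨B, rfl⟩ : ∃ B, A = B + 1 := ⟨A - 1, by omega⟩
  have h' : ∀ u v w, (B + 1 ≤ f u v ∨ B + 1 ≤ f v w ∨ B + 1 ≤ f u w) ∨
      (B ≤ f u v ∧ B ≤ f v w ∧ B ≤ f u w) := by
    intro u v w
    simpa using h u v w
  exact aux V f B (by omega) hs hd h' (Fintype.card V) univ (by simp)

end Pool.Agent.N530.CT.WT
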